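import Mathlib
import Pool.Agent.NH88.FX.Sem

set_option autoImplicit false

/-! The witness on words consisting of matrices and queries. -/

namespace Pool.Agent.NH88.FX

open Relation Pool.Agent.H630R2.LA

variable {m : ℕ} {strict : Prop}

/-! ### Single steps -/

theorem T1_B (k : Fin (m + 1)) (l : Ltr) (r : St m) : T1 (.B, k) l r ↔ r = (.B, k) := by
  constructor
  · intro h
    obtain ⟨g', i'⟩ := r
    unfold T1 at h
    dsimp only at h
    generalize hi' : i'.val = a' at h
    generalize hi : k.val = a at h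
    cases h
    have : i' = k := Fin.ext (hi'.trans hi.symm)
    rw [this]
  · rintro rfl
    exact Tr.B_go k.val l

theorem T1_C_bit (k : Fin (m + 1)) (x : Bool) (r : St m) :
    T1 (.C, k) (.bit x) r ↔ r.1 = .C ∧ r.2.val = k.val + 1 := by
  constructor
  · intro h
    obtain ⟨g', i'⟩ := r
    unfold T1 at h
    dsimp only at h
    generalize hi' : i'.val = a' at h
    generalize hi : k.val = a at h
    cases h
    exact ⟨rfl, rfl⟩
  · rintro ⟨h1, h2⟩
    obtain ⟨g', i'⟩ := r
    dsimp only at h1 h2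
    subst h1
    unfold T1
    dsimp only
    rw [h2]
    exact Tr.C_bit k.val x

theorem T1_C_u (k : Fin (m + 1)) (r : St m) : T1 (.C, k) .u r ↔ r = (.B, k) := by
  constructor
  · intro h
    obtain ⟨g', i'⟩ := r
    unfold T1 at h
    dsimp only at h
    generalize hi' : i'.val = a' at h
    generalize hi : k.val = a at h
    cases h
    have : i' = k := Fin.ext (hi'.trans hi.symm)
    rw [this]
  · rintro rfl
    exact Tr.C_u k.val

theorem T1_R_u (b : Bool) (i : Fin (m + 1)) (r : St m) :
    T1 (.R b, i) .u r ↔ r.1 = .R b ∧ r.2.val + 1 = i.val := by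
  constructor
  · intro h
    obtain ⟨g', i'⟩ := r
    unfold T1 at h
    dsimp only at h
    generalize hi' : i'.val = a' at h
    generalize hi : i.val = a at h
    cases h
    exact ⟨rfl, rfl⟩
  · rintro ⟨h1, h2⟩
    obtain ⟨g', i'⟩ := r
    dsimp only at h1 h2
    subst h1
    unfold T1
    dsimp only
    rw [← h2]
    exact Tr.R_u b i'.val

theorem T1_R_bit (b : Bool) (i : Fin (m + 1)) (x : Bool) (r : St m) :
    T1 (.R b, i) (.bit x) r ↔ r = (.R b, i) ∨ (i = 0 ∧ x = b ∧ r = (.C, 0)) := by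
  constructor
  · intro h
    obtain ⟨g', i'⟩ := r
    unfold T1 at h
    dsimp only at h
    generalize hi' : i'.val = a' at h
    generalize hi : i.val = a at h
    cases h with
    | R_go b a x =>
      have : i' = i := Fin.ext (hi'.trans hi.symm)
      left
      rw [this]
    | R_pick b =>
      right
      have h1 : i' = 0 := Fin.ext hi'
      have h2 : i = 0 := Fin.ext hi
      exact ⟨h2, rfl, by rw [h1]⟩
  · rintro (rfl | ⟨rfl, rfl, rfl⟩)
    · exact Tr.R_go b i.val x
    · exact Tr.R_pick _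

/-! ### Scanning a row -/

theorem Rch_B (w : List Ltr) (k : Fin (m + 1)) (r : St m) : Rch w (.B, k) r ↔ r = (.B, k) := by
  induction w with
  | nil => exact ⟨fun h => (show _ = r from h).symm, fun h => h.symm⟩
  | cons l w ih =>
    constructor
    · rintro ⟨t, h1, h2⟩
      rw [T1_B] at h1
      subst h1
      exact ih.1 h2
    · intro h
      exact ⟨(.B, k), (T1_B k l _).2 rfl, ih.2 h⟩

theorem Rch_C (ρ : List Bool) (k : Fin (m + 1)) (r : St m) :
    Rch (ρ.map Ltr.bit) (.C, k) r ↔ r.1 = .C ∧ r.2.val = k.val + ρ.length := by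
  induction ρ generalizing k with
  | nil =>
    constructor
    · intro h
      have h' : ((.C, k) : St m) = r := h
      rw [← h']
      exact ⟨rfl, rfl⟩
    · rintro ⟨h1, h2⟩
      exact Prod.ext h1.symm (Fin.ext h2.symm)
  | cons x ρ ih =>
    constructor
    · rintro ⟨t, h1, h2⟩
      rw [T1_C_bit] at h1
      obtain ⟨h3, h4⟩ := h1
      obtain ⟨g, k'⟩ := t
      dsimp only at h3 h4
      subst h3
      obtain ⟨h5, h6⟩ := (ih k').1 h2
      refine ⟨h5, ?_⟩
      rw [h6, h4, List.length_cons]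
      ring
    · rintro ⟨h1, h2⟩
      have hk : k.val + 1 < m + 1 := by
        have := r.2.isLt
        rw [List.length_cons] at h2
        omega
      refine ⟨(.C, ⟨k.val + 1, hk⟩), (T1_C_bit k x _).2 ⟨rfl, rfl⟩, (ih _).2 ⟨h1, ?_⟩⟩
      rw [h2, List.length_cons]
      ring

/-- the bit in front of the last `k` bits of `ρ` is `b` -/
def Pick : List Bool → Bool → ℕ → Prop
  | [], _, _ => False
  | x :: ρ, b, k => (x = b ∧ k = ρ.length) ∨ Pick ρ b k

theorem pick_iff (ρ : List Bool) (b : Bool) (k : ℕ) : Pick ρ b k ↔ ρ.reverse[k]? = some b := by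
  induction ρ with
  | nil => simp [Pick]
  | cons x ρ ih =>
    simp only [Pick, List.reverse_cons]
    rw [ih]
    rcases lt_trichotomy k ρ.length with h | h | h
    · rw [List.getElem?_append_left (by simpa using h)]
      constructor
      · rintro (⟨_, h1⟩ | h1)
        · omega
        · exact h1
      · intro h1
        exact Or.inr h1
    · subst h
      rw [List.getElem?_append_right (by simp)]
      simp
    · rw [List.getElem?_append_right (by simp; omega), List.getElem?_eq_none (by simp; omega)]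
      constructor
      · rintro (⟨_, h1⟩ | h1)
        · omega
        · cases h1
      · intro h1
        rw [List.getElem?_eq_none (by simp; omega)] at h1
        cases h1

/-- The word of a row. -/
def rowW (ρ : List Bool) : List Ltr := ρ.map Ltr.bit ++ [Ltr.u]

theorem Rch_row_pos (ρ : List Bool) (b : Bool) (i : Fin (m + 1)) (hi : 0 < i.val) (r : St m) :
    Rch (rowW ρ) (.R b, i) r ↔ r.1 = .R b ∧ r.2.val + 1 = i.val := by
  unfold rowW
  induction ρ with
  | nil =>
    rw [List.map_nil, List.nil_append, Rch_single, T1_R_u]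
  | cons x ρ ih =>
    rw [List.map_cons, List.cons_append]
    constructor
    · rintro ⟨t, h1, h2⟩
      rw [T1_R_bit] at h1
      rcases h1 with rfl | ⟨rfl, _⟩
      · exact ih.1 h2
      · simp at hi
    · intro h
      exact ⟨(.R b, i), (T1_R_bit _ _ _ _).2 (Or.inl rfl), ih.2 h⟩

theorem Rch_row_zero (ρ : List Bool) (b : Bool) (r : St m) :
    Rch (rowW ρ) (.R b, 0) r ↔ r.1 = .B ∧ Pick ρ b r.2.val := by
  unfold rowW
  induction ρ with
  | nil =>
    rw [List.map_nil, List.nil_append, Rch_single, T1_R_u]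
    constructor
    · rintro ⟨_, h⟩
      simp at h
    · rintro ⟨_, h⟩
      exact absurd h (by simp [Pick])
  | cons x ρ ih =>
    rw [List.map_cons, List.cons_append]
    constructor
    · rintro ⟨t, h1, h2⟩
      rw [T1_R_bit] at h1
      rcases h1 with rfl | ⟨_, rfl, rfl⟩
      · obtain ⟨h3, h4⟩ := ih.1 h2
        exact ⟨h3, Or.inr h4⟩
      · rw [Rch_append] at h2
        obtain ⟨t, h3, h4⟩ := h2
        rw [Rch_C] at h3
        rw [Rch_single] at h4
        obtain ⟨g, k⟩ := t
        obtain ⟨h5, h6⟩ := h3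
        dsimp only at h5 h6
        subst h5
        rw [T1_C_u] at h4
        subst h4
        refine ⟨rfl, Or.inl ⟨rfl, ?_⟩⟩
        dsimp only
        rw [h6]
        simp
    · rintro ⟨h1, h2 | h2⟩
      · obtain ⟨rfl, h3⟩ := h2
        refine ⟨(.C, 0), (T1_R_bit _ _ _ _).2 (Or.inr ⟨rfl, rfl, rfl⟩), ?_⟩
        rw [Rch_append]
        refine ⟨(.C, r.2), (Rch_C _ _ _).2 ⟨rfl, ?_⟩, ?_⟩
        · dsimp only
          rw [h3]
          simp
        · rw [Rch_single, T1_C_u]
          exact Prod.ext h1 rfl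
      · exact ⟨(.R b, 0), (T1_R_bit _ _ _ _).2 (Or.inl rfl), ih.2 ⟨h1, h2⟩⟩

theorem Rch_rows (L : List (List Bool)) (b : Bool) (i : Fin (m + 1)) (hi : i.val < L.length)
    (z : List Ltr) (r : St m) :
    Rch (L.flatMap rowW ++ z) (.R b, i) r ↔ r.1 = .B ∧ Pick (L[i.val]'hi) b r.2.val := by
  induction L generalizing i with
  | nil => simp at hi
  | cons ρ L ih =>
    rw [List.flatMap_cons, List.append_assoc]
    rcases Nat.eq_zero_or_pos i.val with h0 | h0
    · have hi0 : i = 0 := Fin.ext h0
      subst hi0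
      have hget : (ρ :: L)[(0 : Fin (m + 1)).val]'hi = ρ := rfl
      rw [hget, Rch_append]
      constructor
      · rintro ⟨t, h1, h2⟩
        rw [Rch_row_zero] at h1
        obtain ⟨g, k⟩ := t
        obtain ⟨h3, h4⟩ := h1
        dsimp only at h3
        subst h3
        rw [Rch_B] at h2
        subst h2
        exact ⟨rfl, h4⟩
      · rintro ⟨h1, h2⟩
        refine ⟨r, (Rch_row_zero _ _ _).2 ⟨h1, h2⟩, ?_⟩
        obtain ⟨g, k⟩ := r
        dsimp only at h1
        subst h1
        exact (Rch_B _ _ _).2 rfl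
    · have hlt : i.val - 1 < L.length := by
        rw [List.length_cons] at hi
        omega
      have hlt' : i.val - 1 < m + 1 := by omega
      have hget : (ρ :: L)[i.val]'hi = L[i.val - 1]'hlt := by
        rw [List.getElem_cons, dif_neg (by omega)]
      have key := ih ⟨i.val - 1, hlt'⟩ hlt
      rw [hget, ← key, Rch_append]
      constructor
      · rintro ⟨t, h1, h2⟩
        rw [Rch_row_pos _ _ _ h0] at h1
        obtain ⟨h3, h4⟩ := h1
        have : t = (.R b, ⟨i.val - 1, hlt'⟩) := Prod.ext h3 (Fin.ext (by simp only; omega))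
        rw [← this]
        exact h2
      · intro h
        exact ⟨_, (Rch_row_pos _ _ _ h0 _).2 ⟨rfl, by simp only; omega⟩, h⟩

/-! ### Matrices -/

/-- The rows of a matrix, as written in the word. -/
def rowsL (X : Fin m → Fin m → Bool) : List (List Bool) :=
  List.ofFn fun i => (List.ofFn (X i)).reverse

/-- The word of a matrix without the initial letter `s`. -/
def rowsW (X : Fin m → Fin m → Bool) : List Ltr := (rowsL X).flatMap rowW

theorem Rch_matrix (X : Fin m → Fin m → Bool) (b : Bool) (i : Fin m) (z : List Ltr) (r : St m) :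
    Rch (rowsW X ++ z) (.R b, i.castSucc) r ↔ ∃ k : Fin m, X i k = b ∧ r = (.B, k.castSucc) := by
  unfold rowsW
  rw [Rch_rows (rowsL X) b i.castSucc (by simp [rowsL])]
  have hget : (rowsL X)[i.castSucc.val]'(by simp [rowsL]) = (List.ofFn (X i)).reverse := by
    simp [rowsL]
  rw [hget, pick_iff, List.reverse_reverse, List.getElem?_ofFn]
  constructor
  · rintro ⟨h1, h2⟩
    split_ifs at h2 with h3
    · refine ⟨⟨r.2.val, h3⟩, Option.some.inj h2, Prod.ext h1 (Fin.ext rfl)⟩
  · rintro ⟨k, h1, rfl⟩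
    refine ⟨rfl, ?_⟩
    dsimp only
    rw [dif_pos (by simp)]
    exact congrArg some h1

/-! ### Steps after the mark -/

theorem S1_K (v : List Ltr) (l : Ltr) (hl : l ≠ .b) (hl' : l ≠ .e) (r : St m) :
    S1 v (.K, 0) l r ↔ r = (.K, 0) ∨ (l = .q ∧ r = (.I, 0)) := by
  constructor
  · rintro (h | ⟨b, i, h, _⟩)
    · obtain ⟨g', i'⟩ := r
      dsimp only at h
      generalize hi' : i'.val = a' at h
      have h0 : ((0 : Fin (m + 1)).val) = 0 := rfl
      rw [h0] at h
      cases h with
      | K_go l _ _ =>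
        left
        have h1 : i' = 0 := Fin.ext hi'
        rw [h1]
      | K_q =>
        right
        have h1 : i' = 0 := Fin.ext hi'
        exact ⟨rfl, by rw [h1]⟩
    · cases h
  · rintro (rfl | ⟨rfl, rfl⟩)
    · exact Or.inl (Tr.K_go l hl hl')
    · exact Or.inl Tr.K_q

theorem S1_I_u (v : List Ltr) (i : Fin (m + 1)) (r : St m) :
    S1 v (.I, i) .u r ↔ r.1 = .I ∧ r.2.val = i.val + 1 := by
  constructor
  · rintro (h | ⟨b, i', _, h, _⟩)
    · obtain ⟨g', i'⟩ := r
      dsimp only at h
      generalize hi' : i'.val = a' at h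
      generalize hi : i.val = a at h
      cases h
      exact ⟨rfl, rfl⟩
    · cases h
  · rintro ⟨h1, h2⟩
    obtain ⟨g', i'⟩ := r
    dsimp only at h1 h2
    subst h1
    left
    dsimp only
    rw [h2]
    exact Tr.I_u i.val

theorem S1_I_bit (v : List Ltr) (i : Fin (m + 1)) (b : Bool) (r : St m) :
    S1 v (.I, i) (.bit b) r ↔ Rch (v ++ [.bit b]) (.R b, i) r := by
  constructor
  · rintro (h | ⟨b', i', h1, h2, h3⟩)
    · obtain ⟨g', i'⟩ := r
      dsimp only at h
      generalize hi' : i'.val = a' at h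
      generalize hi : i.val = a at h
      cases h
    · cases h1
      cases h2
      exact h3
  · intro h
    exact Or.inr ⟨b, i, rfl, rfl, h⟩

theorem S1_B_u (v : List Ltr) (k : Fin (m + 1)) (r : St m) :
    S1 v (.B, k) .u r ↔ r.1 = .B ∧ r.2.val + 1 = k.val := by
  constructor
  · rintro (h | ⟨b, i', h, _⟩)
    · obtain ⟨g', i'⟩ := r
      dsimp only at h
      generalize hi' : i'.val = a' at h
      generalize hi : k.val = a at h
      cases h
      exact ⟨rfl, rfl⟩
    · cases h
  · rintro ⟨h1, h2⟩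
    obtain ⟨g', i'⟩ := r
    dsimp only at h1 h2
    subst h1
    left
    dsimp only
    rw [← h2]
    exact Tr.B_u i'.val

theorem S1_B_s (v : List Ltr) (k : Fin (m + 1)) (r : St m) :
    S1 v (.B, k) .s r ↔ k = 0 ∧ r = (.I, 0) := by
  constructor
  · rintro (h | ⟨b, i', h, _⟩)
    · obtain ⟨g', i'⟩ := r
      dsimp only at h
      generalize hi' : i'.val = a' at h
      generalize hi : k.val = a at h
      cases h
      have h1 : i' = 0 := Fin.ext hi'
      have h2 : k = 0 := Fin.ext hi
      exact ⟨h2, by rw [h1]⟩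
    · cases h
  · rintro ⟨rfl, rfl⟩
    exact Or.inl Tr.B_s

/-! ### Words after the mark -/

theorem S2_K_free (w v : List Ltr) (hw : Ltr.q ∉ w) (hb : Ltr.b ∉ w) (he : Ltr.e ∉ w)
    (r : St m) :
    S2 w v (.K, 0) r ↔ r = (.K, 0) := by
  induction w generalizing v with
  | nil => exact ⟨fun h => (show _ = r from h).symm, fun h => h.symm⟩
  | cons l w ih =>
    have hl : l ≠ .q := fun h => hw (by rw [h]; exact List.mem_cons_self)
    have hw' : Ltr.q ∉ w := fun h => hw (List.mem_cons_of_mem _ h)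
    have hlb : l ≠ .b := fun h => hb (by rw [h]; exact List.mem_cons_self)
    have hb' : Ltr.b ∉ w := fun h => hb (List.mem_cons_of_mem _ h)
    have hle : l ≠ .e := fun h => he (by rw [h]; exact List.mem_cons_self)
    have he' : Ltr.e ∉ w := fun h => he (List.mem_cons_of_mem _ h)
    constructor
    · rintro ⟨t, h1, h2⟩
      rw [S1_K _ _ hlb hle] at h1
      rcases h1 with rfl | ⟨h1, _⟩
      · exact (ih _ hw' hb' he').1 h2
      · exact absurd h1 hl
    · intro h
      exact ⟨(.K, 0), (S1_K _ _ hlb hle _).2 (Or.inl rfl), (ih _ hw' hb' he').2 h⟩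

theorem S2_K_q (w z v : List Ltr) (hw : Ltr.q ∉ w) (hb : Ltr.b ∉ w) (he : Ltr.e ∉ w) (r : St m) :
    S2 (w ++ Ltr.q :: z) v (.K, 0) r ↔ (S2 z (v ++ w ++ [Ltr.q]) (.K, 0) r ∨
      S2 z (v ++ w ++ [Ltr.q]) (.I, 0) r) := by
  rw [S2_append]
  constructor
  · rintro ⟨t, h1, h2⟩
    rw [S2_K_free _ _ hw hb he] at h1
    subst h1
    obtain ⟨t, h3, h4⟩ := h2
    rw [S1_K _ _ (by decide) (by decide)] at h3
    rcases h3 with rfl | ⟨_, rfl⟩
    · exact Or.inl h4
    · exact Or.inr h4
  · rintro (h | h)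
    · exact ⟨(.K, 0), (S2_K_free _ _ hw hb he _).2 rfl, (.K, 0),
        (S1_K _ _ (by decide) (by decide) _).2 (Or.inl rfl), h⟩
    · exact ⟨(.K, 0), (S2_K_free _ _ hw hb he _).2 rfl, (.I, 0),
        (S1_K _ _ (by decide) (by decide) _).2 (Or.inr ⟨rfl, rfl⟩), h⟩

theorem S1_H (v : List Ltr) (l : Ltr) (hl : l ≠ .b) (hl' : l ≠ .e) (r : St m) :
    S1 v (.H, 0) l r ↔ r = (.H, 0) := by
  constructor
  · rintro (h | ⟨b, i, h, _⟩)
    · obtain ⟨g', i'⟩ := r
      dsimp only at h
      generalize hi' : i'.val = a' at h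
      have h0 : ((0 : Fin (m + 1)).val) = 0 := rfl
      rw [h0] at h
      cases h with
      | H_e => exact absurd rfl hl'
      | H_go l _ _ =>
        have h1 : i' = 0 := Fin.ext hi'
        rw [h1]
    · cases h
  · rintro rfl
    exact Or.inl (Tr.H_go l hl hl')

theorem S2_H (w v : List Ltr) (hb : Ltr.b ∉ w) (he : Ltr.e ∉ w) (r : St m) :
    S2 w v (.H, 0) r ↔ r = (.H, 0) := by
  induction w generalizing v with
  | nil => exact ⟨fun h => (show _ = r from h).symm, fun h => h.symm⟩
  | cons l w ih =>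
    have hlb : l ≠ .b := fun h => hb (by rw [h]; exact List.mem_cons_self)
    have hb' : Ltr.b ∉ w := fun h => hb (List.mem_cons_of_mem _ h)
    have hle : l ≠ .e := fun h => he (by rw [h]; exact List.mem_cons_self)
    have he' : Ltr.e ∉ w := fun h => he (List.mem_cons_of_mem _ h)
    constructor
    · rintro ⟨t, h1, h2⟩
      rw [S1_H _ _ hlb hle] at h1
      subst h1
      exact (ih _ hb' he').1 h2
    · intro h
      exact ⟨(.H, 0), (S1_H _ _ hlb hle _).2 rfl, (ih _ hb' he').2 h⟩

theorem S1_I_q (v : List Ltr) (r : St m) : S1 v (.I, 0) .q r ↔ r = (.H, 0) := by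
  constructor
  · rintro (h | ⟨b, i, _, h, _⟩)
    · obtain ⟨g', i'⟩ := r
      dsimp only at h
      generalize hi' : i'.val = a' at h
      have h0 : ((0 : Fin (m + 1)).val) = 0 := rfl
      rw [h0] at h
      cases h with
      | I_q =>
        have h1 : i' = 0 := Fin.ext hi'
        rw [h1]
    · cases h
  · rintro rfl
    exact Or.inl Tr.I_q

theorem S2_I_us (n : ℕ) (v : List Ltr) (i : Fin (m + 1)) (r : St m) :
    S2 (List.replicate n Ltr.u) v (.I, i) r ↔ r.1 = .I ∧ r.2.val = i.val + n := by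
  induction n generalizing v i with
  | zero =>
    constructor
    · intro h
      have h' : ((.I, i) : St m) = r := h
      rw [← h']
      exact ⟨rfl, rfl⟩
    · rintro ⟨h1, h2⟩
      exact Prod.ext h1.symm (Fin.ext h2.symm)
  | succ n ih =>
    rw [List.replicate_succ]
    constructor
    · rintro ⟨t, h1, h2⟩
      rw [S1_I_u] at h1
      obtain ⟨g, k'⟩ := t
      obtain ⟨h3, h4⟩ := h1
      dsimp only at h3 h4
      subst h3
      obtain ⟨h5, h6⟩ := (ih _ k').1 h2
      exact ⟨h5, by rw [h6, h4]; ring⟩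
    · rintro ⟨h1, h2⟩
      have hk : i.val + 1 < m + 1 := by
        have := r.2.isLt
        omega
      exact ⟨(.I, ⟨i.val + 1, hk⟩), (S1_I_u _ _ _).2 ⟨rfl, rfl⟩,
        (ih _ _).2 ⟨h1, by rw [h2]; ring⟩⟩

theorem S2_B_us (n : ℕ) (v : List Ltr) (k : Fin (m + 1)) (r : St m) :
    S2 (List.replicate n Ltr.u) v (.B, k) r ↔ r.1 = .B ∧ r.2.val + n = k.val := by
  induction n generalizing v k with
  | zero =>
    constructor
    · intro h
      have h' : ((.B, k) : St m) = r := h
      rw [← h']
      exact ⟨rfl, rfl⟩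
    · rintro ⟨h1, h2⟩
      exact Prod.ext h1.symm (Fin.ext h2.symm)
  | succ n ih =>
    rw [List.replicate_succ]
    constructor
    · rintro ⟨t, h1, h2⟩
      rw [S1_B_u] at h1
      obtain ⟨g, k'⟩ := t
      obtain ⟨h3, h4⟩ := h1
      dsimp only at h3 h4
      subst h3
      obtain ⟨h5, h6⟩ := (ih _ k').1 h2
      exact ⟨h5, by omega⟩
    · rintro ⟨h1, h2⟩
      have hk : k.val - 1 < m + 1 := by omega
      exact ⟨(.B, ⟨k.val - 1, hk⟩), (S1_B_u _ _ _).2 ⟨rfl, by simp only; omega⟩,
        (ih _ _).2 ⟨h1, by simp only; omega⟩⟩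

/-- The query whether the entry `(i, k)` is `b`. -/
def query (i k : Fin m) (b : Bool) : List Ltr :=
  List.replicate i.val Ltr.u ++ (Ltr.bit b :: (List.replicate k.val Ltr.u ++ [Ltr.s]))

theorem S2_query (X : Fin m → Fin m → Bool) (z : List Ltr) (i k : Fin m) (b : Bool)
    (w : List Ltr) (r : St m) :
    S2 (query i k b ++ w) (rowsW X ++ z) (.I, 0) r ↔
      X i k = b ∧ S2 w (rowsW X ++ z ++ query i k b) (.I, 0) r := by
  rw [S2_append]
  have key : ∀ t : St m, S2 (query i k b) (rowsW X ++ z) (.I, 0) t ↔ X i k = b ∧ t = (.I, 0) := by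
    intro t
    unfold query
    rw [S2_append]
    constructor
    · rintro ⟨t1, h1, t2, h2, h3⟩
      rw [S2_I_us] at h1
      obtain ⟨g, k1⟩ := t1
      obtain ⟨h4, h5⟩ := h1
      dsimp only at h4 h5
      subst h4
      have hk1 : k1 = i.castSucc := Fin.ext (by rw [h5]; simp)
      subst hk1
      rw [S1_I_bit, List.append_assoc, List.append_assoc, Rch_matrix] at h2
      obtain ⟨k2, h6, rfl⟩ := h2
      rw [S2_append] at h3
      obtain ⟨t3, h7, t4, h8, h9⟩ := h3
      rw [S2_B_us] at h7
      obtain ⟨g3, k3⟩ := t3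
      obtain ⟨h10, h11⟩ := h7
      dsimp only at h10 h11
      subst h10
      rw [S1_B_s] at h8
      obtain ⟨rfl, rfl⟩ := h8
      have hk2 : k2 = k := Fin.ext (by simp at h11; omega)
      subst hk2
      exact ⟨h6, (show _ = t from h9).symm⟩
    · rintro ⟨h1, rfl⟩
      refine ⟨(.I, i.castSucc), (S2_I_us _ _ _ _).2 ⟨rfl, by simp⟩, (.B, k.castSucc), ?_, ?_⟩
      · rw [S1_I_bit, List.append_assoc, List.append_assoc, Rch_matrix]
        exact ⟨k, h1, rfl⟩
      · rw [S2_append]
        exact ⟨(.B, 0), (S2_B_us _ _ _ _).2 ⟨rfl, by simp⟩, (.I, 0),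
          (S1_B_s _ _ _).2 ⟨rfl, rfl⟩, rfl⟩
  constructor
  · rintro ⟨t, h1, h2⟩
    rw [key] at h1
    obtain ⟨h3, rfl⟩ := h1
    exact ⟨h3, h2⟩
  · rintro ⟨h1, h2⟩
    exact ⟨(.I, 0), (key _).2 ⟨h1, rfl⟩, h2⟩

/-- A list of queries. -/
def queriesW (l : List (Fin m × Fin m × Bool)) : List Ltr := l.flatMap fun x => query x.1 x.2.1 x.2.2

theorem S2_queries (X : Fin m → Fin m → Bool) (l : List (Fin m × Fin m × Bool)) (z : List Ltr) :
    S2 (queriesW l) (rowsW X ++ z) ((.I, 0) : St m) (.I, 0) ↔ ∀ x ∈ l, X x.1 x.2.1 = x.2.2 := by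
  induction l generalizing z with
  | nil =>
    simp only [List.not_mem_nil, false_implies, implies_true, iff_true]
    rfl
  | cons x l ih =>
    have h1 : queriesW (x :: l) = query x.1 x.2.1 x.2.2 ++ queriesW l := rfl
    rw [h1, S2_query, List.append_assoc, ih]
    simp only [List.mem_cons, forall_eq_or_imp]

theorem S2_queries' (X : Fin m → Fin m → Bool) (l : List (Fin m × Fin m × Bool)) (z : List Ltr)
    (r : St m) : S2 (queriesW l) (rowsW X ++ z) ((.I, 0) : St m) r ↔
      (∀ x ∈ l, X x.1 x.2.1 = x.2.2) ∧ r = (.I, 0) := by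
  induction l generalizing z with
  | nil =>
    simp only [List.not_mem_nil, false_implies, implies_true, true_and]
    exact ⟨fun h => (show _ = r from h).symm, fun h => h.symm⟩
  | cons x l ih =>
    have h1 : queriesW (x :: l) = query x.1 x.2.1 x.2.2 ++ queriesW l := rfl
    rw [h1, S2_query, List.append_assoc, ih]
    simp only [List.mem_cons, forall_eq_or_imp]
    tauto

/-! ### Complete words -/

/-- The word of a list of matrices. -/
def blocksW (Xs : List (Fin m → Fin m → Bool)) : List Ltr := Xs.flatMap fun X => Ltr.s :: rowsW X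

theorem rowsW_free (X : Fin m → Fin m → Bool) :
    Ltr.s ∉ rowsW X ∧ Ltr.q ∉ rowsW X ∧ Ltr.b ∉ rowsW X ∧ Ltr.e ∉ rowsW X := by
  refine ⟨?_, ?_, ?_, ?_⟩ <;>
  · intro h
    unfold rowsW at h
    rw [List.mem_flatMap] at h
    obtain ⟨ρ, _, h⟩ := h
    simp [rowW] at h

theorem blocksW_free (Xs : List (Fin m → Fin m → Bool)) :
    Ltr.q ∉ blocksW Xs ∧ Ltr.b ∉ blocksW Xs ∧ Ltr.e ∉ blocksW Xs := by
  refine ⟨?_, ?_, ?_⟩
  all_goals
    intro h
    unfold blocksW at h
    rw [List.mem_flatMap] at h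
    obtain ⟨X, _, h⟩ := h
    rw [List.mem_cons] at h
    rcases h with h | h
    · cases h
  · exact (rowsW_free X).2.1 h
  · exact (rowsW_free X).2.2.1 h
  · exact (rowsW_free X).2.2.2 h

theorem queriesW_free (l : List (Fin m × Fin m × Bool)) :
    Ltr.q ∉ queriesW l ∧ Ltr.b ∉ queriesW l ∧ Ltr.e ∉ queriesW l := by
  refine ⟨?_, ?_, ?_⟩ <;>
  · intro h
    unfold queriesW at h
    rw [List.mem_flatMap] at h
    obtain ⟨x, _, h⟩ := h
    simp [query, List.mem_replicate] at h

theorem split_free (w a c w' : List Ltr) (hw : Ltr.s ∉ w) (h : w ++ w' = a ++ Ltr.s :: c) :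
    ∃ a', a = w ++ a' ∧ w' = a' ++ Ltr.s :: c := by
  induction w generalizing a with
  | nil => exact ⟨a, rfl, h⟩
  | cons x w ih =>
    rcases a with _ | ⟨y, a⟩
    · simp only [List.cons_append, List.nil_append, List.cons.injEq] at h
      exact absurd (by rw [← h.1]; exact List.mem_cons_self) hw
    · simp only [List.cons_append, List.cons.injEq] at h
      obtain ⟨rfl, h⟩ := h
      obtain ⟨a', h1, h2⟩ := ih a (fun h' => hw (List.mem_cons_of_mem _ h')) h
      exact ⟨a', by rw [h1]; rfl, h2⟩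

/-- The word of a list of lists of queries. -/
def listsW (Q : List (List (Fin m × Fin m × Bool))) : List Ltr :=
  Q.flatMap fun l => Ltr.q :: queriesW l

theorem listsW_free (Q : List (List (Fin m × Fin m × Bool))) :
    Ltr.b ∉ listsW Q ∧ Ltr.e ∉ listsW Q := by
  refine ⟨?_, ?_⟩
  all_goals
    intro h
    unfold listsW at h
    rw [List.mem_flatMap] at h
    obtain ⟨X, _, h⟩ := h
    rw [List.mem_cons] at h
    rcases h with h | h
    · cases h
  · exact (queriesW_free X).2.1 h
  · exact (queriesW_free X).2.2 h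

/-- Some list is processed. -/
theorem S2_lists (X : Fin m → Fin m → Bool) (Q : List (List (Fin m × Fin m × Bool))) :
    ∀ (w z : List Ltr), Ltr.q ∉ w → Ltr.b ∉ w → Ltr.e ∉ w →
    ((S2 (w ++ listsW Q) (rowsW X ++ z) ((.K, 0) : St m) (.I, 0) ∨
      S2 (w ++ listsW Q) (rowsW X ++ z) ((.K, 0) : St m) (.H, 0)) ↔
      ∃ l ∈ Q, ∀ x ∈ l, X x.1 x.2.1 = x.2.2) := by
  induction Q with
  | nil =>
    intro w z hw hwb hwe
    have e : w ++ listsW ([] : List (List (Fin m × Fin m × Bool))) = w := by simp [listsW]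
    rw [e, S2_K_free _ _ hw hwb hwe, S2_K_free _ _ hw hwb hwe]
    constructor
    · rintro (h | h) <;> cases h
    · rintro ⟨l, hl, _⟩
      simp at hl
  | cons l Q ih =>
    intro w z hw hwb hwe
    have e : w ++ listsW (l :: Q) = w ++ Ltr.q :: (queriesW l ++ listsW Q) := by
      simp [listsW]
    rw [e, S2_K_q _ _ _ hw hwb hwe, S2_K_q _ _ _ hw hwb hwe]
    have e2 : rowsW X ++ z ++ w ++ [Ltr.q] = rowsW X ++ (z ++ w ++ [Ltr.q]) := by simp
    rw [e2]
    have hI : (S2 (queriesW l ++ listsW Q) (rowsW X ++ (z ++ w ++ [Ltr.q])) ((.I, 0) : St m) (.I, 0) ∨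
        S2 (queriesW l ++ listsW Q) (rowsW X ++ (z ++ w ++ [Ltr.q])) ((.I, 0) : St m) (.H, 0)) ↔
        ∀ x ∈ l, X x.1 x.2.1 = x.2.2 := by
      rw [S2_append, S2_append]
      constructor
      · rintro (⟨t, h1, _⟩ | ⟨t, h1, _⟩)
        · exact ((S2_queries' _ _ _ _).1 h1).1
        · exact ((S2_queries' _ _ _ _).1 h1).1
      · intro h
        cases Q with
        | nil => exact Or.inl ⟨(.I, 0), (S2_queries' _ _ _ _).2 ⟨h, rfl⟩, rfl⟩
        | cons l' Q =>
          refine Or.inr ⟨(.I, 0), (S2_queries' _ _ _ _).2 ⟨h, rfl⟩, ?_⟩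
          have e3 : listsW (l' :: Q) = Ltr.q :: (queriesW l' ++ listsW Q) := by simp [listsW]
          rw [e3]
          have e4 : Ltr.b ∉ queriesW l' ++ listsW Q := by
            rw [List.mem_append, not_or]
            exact ⟨(queriesW_free l').2.1, (listsW_free Q).1⟩
          have e5 : Ltr.e ∉ queriesW l' ++ listsW Q := by
            rw [List.mem_append, not_or]
            exact ⟨(queriesW_free l').2.2, (listsW_free Q).2⟩
          exact ⟨(.H, 0), (S1_I_q _ _).2 rfl, (S2_H _ _ e4 e5 _).2 rfl⟩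
    have hK := ih (queriesW l) (z ++ w ++ [Ltr.q]) (queriesW_free l).1 (queriesW_free l).2.1
      (queriesW_free l).2.2
    constructor
    · rintro ((h | h) | (h | h))
      · obtain ⟨l', h1, h2⟩ := hK.1 (Or.inl h)
        exact ⟨l', List.mem_cons_of_mem _ h1, h2⟩
      · exact ⟨l, List.mem_cons_self, hI.1 (Or.inl h)⟩
      · obtain ⟨l', h1, h2⟩ := hK.1 (Or.inr h)
        exact ⟨l', List.mem_cons_of_mem _ h1, h2⟩
      · exact ⟨l, List.mem_cons_self, hI.1 (Or.inr h)⟩
    · rintro ⟨l', h1, h2⟩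
      rcases List.mem_cons.1 h1 with rfl | h1
      · rcases hI.2 h2 with h | h
        · exact Or.inl (Or.inr h)
        · exact Or.inr (Or.inr h)
      · rcases hK.2 ⟨l', h1, h2⟩ with h | h
        · exact Or.inl (Or.inl h)
        · exact Or.inr (Or.inl h)

theorem accept_split (Xs : List (Fin m → Fin m → Bool)) (Z : List Ltr) (P : List Ltr → Prop) :
    (∃ a c, blocksW Xs ++ Ltr.q :: Z = a ++ Ltr.s :: c ∧ Ltr.q ∉ a ∧ P c) ↔
      ∃ X Xs1 Xs2, Xs = Xs1 ++ X :: Xs2 ∧ P (rowsW X ++ (blocksW Xs2 ++ Ltr.q :: Z)) := by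
  induction Xs with
  | nil =>
    constructor
    · rintro ⟨a, c, h1, h2, _⟩
      exfalso
      rcases a with _ | ⟨y, a⟩
      · simp [blocksW] at h1
      · simp only [blocksW, List.flatMap_nil, List.nil_append, List.cons_append,
          List.cons.injEq] at h1
        apply h2
        rw [h1.1]
        exact List.mem_cons_self
    · rintro ⟨X, Xs1, Xs2, h, _⟩
      simp at h
  | cons X Xs ih =>
    have e1 : blocksW (X :: Xs) ++ Ltr.q :: Z =
        Ltr.s :: (rowsW X ++ (blocksW Xs ++ Ltr.q :: Z)) := by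
      simp [blocksW]
    rw [e1]
    constructor
    · rintro ⟨a, c, h1, ha, h2⟩
      rcases a with _ | ⟨y, a⟩
      · simp only [List.nil_append, List.cons.injEq, true_and] at h1
        subst h1
        exact ⟨X, [], Xs, rfl, h2⟩
      · simp only [List.cons_append, List.cons.injEq] at h1
        obtain ⟨a', h0, h3⟩ := split_free _ _ _ _ (rowsW_free X).1 h1.2
        have ha' : Ltr.q ∉ a' := by
          intro h
          apply ha
          rw [h0]
          exact List.mem_cons_of_mem _ (List.mem_append_right _ h)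
        obtain ⟨X', Xs1, Xs2, h4, h5⟩ := ih.1 ⟨a', c, h3, ha', h2⟩
        exact ⟨X', X :: Xs1, Xs2, by rw [h4]; rfl, h5⟩
    · rintro ⟨X', Xs1, Xs2, h1, h2⟩
      rcases Xs1 with _ | ⟨Y, Xs1⟩
      · simp only [List.nil_append, List.cons.injEq] at h1
        obtain ⟨rfl, rfl⟩ := h1
        exact ⟨[], _, rfl, by simp, h2⟩
      · simp only [List.cons_append, List.cons.injEq] at h1
        obtain ⟨rfl, h1⟩ := h1
        obtain ⟨a, c, h3, ha, h4⟩ := ih.2 ⟨X', Xs1, Xs2, h1, h2⟩
        refine ⟨Ltr.s :: (rowsW X ++ a), c, ?_, ?_, h4⟩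
        · rw [h3]
          simp
        · intro h
          rcases List.mem_cons.1 h with h | h
          · cases h
          · rcases List.mem_append.1 h with h | h
            · exact (rowsW_free X).2.1 h
            · exact ha h

/-- The runs through a list of matrices followed by a nonempty list of lists of queries and the end
of the segment. -/
theorem runs_word (Xs : List (Fin m → Fin m → Bool)) (l : List (Fin m × Fin m × Bool))
    (Q : List (List (Fin m × Fin m × Bool))) (R : Set (St m × St m)) :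
    (∃ z, runs strict (witM m) ((blocksW Xs ++ listsW (l :: Q)) ++ [Ltr.e])
        (R, ((.A, 0) : St m)) z) ↔
      ∃ X ∈ Xs, ∃ l' ∈ l :: Q, ∀ x ∈ l', X x.1 x.2.1 = x.2.2 := by
  have e : listsW (l :: Q) = Ltr.q :: (queriesW l ++ listsW Q) := by simp [listsW]
  have hb : Ltr.b ∉ blocksW Xs ++ listsW (l :: Q) := by
    rw [List.mem_append, not_or]
    exact ⟨(blocksW_free Xs).2.1, (listsW_free _).1⟩
  have he : Ltr.e ∉ blocksW Xs ++ listsW (l :: Q) := by
    rw [List.mem_append, not_or]
    exact ⟨(blocksW_free Xs).2.2, (listsW_free _).2⟩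
  rw [runs_A _ hb he, e, accept_split _ _
    (fun c => S2 c [] ((.K, 0) : St m) (.I, 0) ∨ S2 c [] ((.K, 0) : St m) (.H, 0)), ← e]
  have key : ∀ (X : Fin m → Fin m → Bool) (Xs2 : List (Fin m → Fin m → Bool)),
      (S2 (rowsW X ++ (blocksW Xs2 ++ listsW (l :: Q))) [] ((.K, 0) : St m) (.I, 0) ∨
        S2 (rowsW X ++ (blocksW Xs2 ++ listsW (l :: Q))) [] ((.K, 0) : St m) (.H, 0)) ↔
        ∃ l' ∈ l :: Q, ∀ x ∈ l', X x.1 x.2.1 = x.2.2 := by
    intro X Xs2
    have h1 := S2_lists X (l :: Q) (blocksW Xs2) [] (blocksW_free Xs2).1 (blocksW_free Xs2).2.1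
      (blocksW_free Xs2).2.2
    rw [List.append_nil] at h1
    rw [← h1]
    have h2 : ∀ r : St m, S2 (rowsW X ++ (blocksW Xs2 ++ listsW (l :: Q))) [] ((.K, 0) : St m) r ↔
        S2 (blocksW Xs2 ++ listsW (l :: Q)) (rowsW X) ((.K, 0) : St m) r := by
      intro r
      rw [S2_append, List.nil_append]
      constructor
      · rintro ⟨t, h3, h4⟩
        rw [S2_K_free _ _ (rowsW_free X).2.1 (rowsW_free X).2.2.1 (rowsW_free X).2.2.2] at h3
        rw [h3] at h4
        exact h4
      · intro h
        exact ⟨(.K, 0), (S2_K_free _ _ (rowsW_free X).2.1 (rowsW_free X).2.2.1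
          (rowsW_free X).2.2.2 _).2 rfl, h⟩
    rw [h2, h2]
  constructor
  · rintro ⟨X, Xs1, Xs2, rfl, h⟩
    exact ⟨X, by simp, (key X Xs2).1 h⟩
  · rintro ⟨X, hX, h⟩
    obtain ⟨Xs1, Xs2, rfl⟩ := List.append_of_mem hX
    exact ⟨X, Xs1, Xs2, rfl, (key X Xs2).2 h⟩

/-- The mode `Z` is entered on the letter `e` only. -/
theorem runs_to_Z (w : List Ltr) : ∀ x y : Set (St m × St m) × St m,
    runs strict (witM m) w x y → y.2 = (.Z, 0) → x.2 ≠ (.Z, 0) → Ltr.e ∈ w := by
  induction w with
  | nil =>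
    intro x y h hy hx
    have h' : x = y := h
    rw [h'] at hx
    exact absurd hy hx
  | cons l w ih =>
    rintro x y ⟨z, h1, h2⟩ hy hx
    by_cases hz : z.2 = (.Z, 0)
    · rw [nstep_to_Z h1 hz]
      exact List.mem_cons_self
    · exact List.mem_cons_of_mem _ (ih z y h2 hy hz)

/-! ### Pieces -/

/-- Matrices. -/
abbrev Mt (m : ℕ) : Type := Fin m → Fin m → Bool

/-- The queries that single out the matrix `Y`. -/
noncomputable def test (Y : Mt m) : List (Fin m × Fin m × Bool) :=
  (Finset.univ : Finset (Fin m × Fin m)).toList.map fun x => (x.1, x.2, Y x.1 x.2)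

theorem test_iff (X Y : Mt m) : (∀ x ∈ test Y, X x.1 x.2.1 = x.2.2) ↔ X = Y := by
  constructor
  · intro h
    ext i k
    have h1 := h (i, k, Y i k) (by simp [test])
    exact h1
  · rintro rfl x hx
    simp only [test, List.mem_map, Finset.mem_toList, Finset.mem_univ, true_and] at hx
    obtain ⟨y, rfl⟩ := hx
    rfl

/-- Two contradictory queries. -/
def bad (i : Fin m) : List (Fin m × Fin m × Bool) := [(i, i, true), (i, i, false)]

theorem not_bad (i : Fin m) (X : Mt m) : ¬ ∀ x ∈ bad i, X x.1 x.2.1 = x.2.2 := by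
  intro h
  have h1 := h (i, i, true) (by simp [bad])
  have h2 := h (i, i, false) (by simp [bad])
  dsimp only at h1 h2
  rw [h1] at h2
  cases h2

/-- The word of a piece: a set of matrices or a set of tests. -/
noncomputable def κ (i : Fin m) : Finset (Mt m) ⊕ Finset (Mt m) → List Ltr
  | .inl S => Ltr.b :: blocksW S.toList
  | .inr T => listsW (bad i :: T.toList.map test) ++ [Ltr.e]

/-- The accepted sequences of pieces. -/
def Good' : List (Finset (Mt m) ⊕ Finset (Mt m)) → Prop
  | [] => True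
  | .inl S :: .inr T :: x => (∃ X, X ∈ S ∧ X ∈ T) ∧ Good' x
  | .inl _ :: _ => False
  | .inr _ :: _ => False

/-- The word of a sequence of pieces. -/
noncomputable def wd (i : Fin m) (x : List (Finset (Mt m) ⊕ Finset (Mt m))) : List Ltr :=
  x.flatMap (κ i)

theorem wd_cons (i : Fin m) (a : Finset (Mt m) ⊕ Finset (Mt m))
    (x : List (Finset (Mt m) ⊕ Finset (Mt m))) : wd i (a :: x) = κ i a ++ wd i x := by
  simp [wd]

theorem runs_good (i : Fin m) : ∀ (n : ℕ) (x : List (Finset (Mt m) ⊕ Finset (Mt m)))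
    (R : Set (St m × St m)), x.length ≤ n →
    ((∃ z, runs strict (witM m) (wd i x) (R, ((.Z, 0) : St m)) z ∧ z.2 = (.Z, 0)) ↔ Good' x) := by
  intro n
  induction n with
  | zero =>
    intro x R hx
    have : x = [] := List.length_eq_zero_iff.1 (by omega)
    subst this
    simp only [Good', iff_true]
    exact ⟨(R, (.Z, 0)), rfl, rfl⟩
  | succ n ih =>
    intro x R hx
    match x, hx with
    | [], _ =>
      simp only [Good', iff_true]
      exact ⟨(R, (.Z, 0)), rfl, rfl⟩
    | .inr T :: x, _ =>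
      simp only [Good', iff_false]
      rintro ⟨z, h, _⟩
      have e : wd i (.inr T :: x) = Ltr.q :: (queriesW (bad i) ++ listsW (T.toList.map test) ++
          [Ltr.e] ++ wd i x) := by
        rw [wd_cons]
        simp [κ, listsW]
      rw [e] at h
      obtain ⟨z', h1, _⟩ := h
      exact not_nstep_Zq z' h1
    | .inl S :: x, hx' =>
      have hZ : ∀ R' : Set (St m × St m), ∀ (w : List Ltr), Ltr.e ∉ w → ∀ z,
          runs strict (witM m) w (R', ((.A, 0) : St m)) z → z.2 ≠ (.Z, 0) := by
        intro R' w hw z h hz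
        exact hw (runs_to_Z w _ _ h hz (by simp))
      have hstep : ∀ w, (∃ z, runs strict (witM m) (Ltr.b :: w) (R, ((.Z, 0) : St m)) z ∧
          z.2 = (.Z, 0)) ↔ ∃ z, runs strict (witM m) w
            (ext strict (witM m) R (.sym (.vis .b)), ((.A, 0) : St m)) z ∧ z.2 = (.Z, 0) := by
        intro w
        constructor
        · rintro ⟨z, ⟨z', h1, h2⟩, h3⟩
          obtain ⟨_, h5, h6⟩ := (nstep_b z').1 h1
          obtain ⟨R', p'⟩ := z'
          dsimp only at h5 h6
          subst h5 h6
          exact ⟨z, h2, h3⟩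
        · rintro ⟨z, h2, h3⟩
          exact ⟨z, ⟨_, (nstep_b _).2 ⟨rfl, rfl, rfl⟩, h2⟩, h3⟩
      rw [wd_cons]
      show (∃ z, runs strict (witM m) ((Ltr.b :: blocksW S.toList) ++ wd i x)
        (R, ((.Z, 0) : St m)) z ∧ z.2 = (.Z, 0)) ↔ _
      rw [List.cons_append, hstep]
      match x, hx' with
      | [], _ =>
        simp only [Good', iff_false]
        rintro ⟨z, h, hz⟩
        have e : blocksW S.toList ++ wd i [] = blocksW S.toList := by simp [wd]
        rw [e] at h
        exact hZ _ _ (blocksW_free _).2.2 z h hz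
      | .inl S' :: x, _ =>
        simp only [Good', iff_false]
        rintro ⟨z, h, hz⟩
        rw [runs_append] at h
        obtain ⟨z1, h1, h2⟩ := h
        rw [wd_cons] at h2
        obtain ⟨z2, h3, _⟩ := h2
        exact hZ _ _ (blocksW_free _).2.2 z1 h1 ((nstep_b z2).1 h3).1
      | .inr T :: x, hx'' =>
        have e : blocksW S.toList ++ wd i (.inr T :: x) =
            ((blocksW S.toList ++ listsW (bad i :: T.toList.map test)) ++ [Ltr.e]) ++ wd i x := by
          rw [wd_cons]
          simp [κ]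
        rw [e]
        simp only [Good']
        have hlen : x.length ≤ n := by
          simp only [List.length_cons] at hx''
          omega
        have h1 : (∃ X, X ∈ S ∧ X ∈ T) ↔ ∃ z, runs strict (witM m)
            ((blocksW S.toList ++ listsW (bad i :: T.toList.map test)) ++ [Ltr.e])
            (ext strict (witM m) R (.sym (.vis .b)), ((.A, 0) : St m)) z := by
          refine Iff.trans ?_ (runs_word (strict := strict) S.toList (bad i)
            (T.toList.map test) (ext strict (witM m) R (.sym (.vis .b)))).symm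
          constructor
          · rintro ⟨X, h2, h3⟩
            refine ⟨X, by simpa using h2, test X, ?_, (test_iff X X).2 rfl⟩
            exact List.mem_cons_of_mem _ (List.mem_map.2 ⟨X, by simpa using h3, rfl⟩)
          · rintro ⟨X, h2, l', h3, h4⟩
            rcases List.mem_cons.1 h3 with rfl | h3
            · exact absurd h4 (not_bad i X)
            · obtain ⟨Y, h5, rfl⟩ := List.mem_map.1 h3
              have h6 := (test_iff X Y).1 h4
              subst h6
              exact ⟨X, by simpa using h2, by simpa using h5⟩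
        rw [h1]
        constructor
        · rintro ⟨z, h2, hz⟩
          rw [runs_append] at h2
          obtain ⟨z1, h3, h4⟩ := h2
          refine ⟨⟨z1, h3⟩, ?_⟩
          rw [runs_append] at h3
          obtain ⟨z0, _, z1', h5, h6⟩ := h3
          have h6' : z1' = z1 := h6
          subst h6'
          obtain ⟨_, h7, _⟩ := (nstep_e z1').1 h5
          obtain ⟨R1, p1⟩ := z1'
          dsimp only at h7
          subst h7
          exact (ih x R1 hlen).1 ⟨z, h4, hz⟩
        · rintro ⟨⟨z1, h3⟩, hg⟩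
          have h3' := h3
          rw [runs_append] at h3'
          obtain ⟨z0, _, z1', h5, h6⟩ := h3'
          have h6' : z1' = z1 := h6
          subst h6'
          obtain ⟨_, h7, _⟩ := (nstep_e z1').1 h5
          obtain ⟨R1, p1⟩ := z1'
          dsimp only at h7
          subst h7
          obtain ⟨z, h8, hz⟩ := (ih x R1 hlen).2 hg
          exact ⟨z, (runs_append _ _ _ _).2 ⟨_, h3, h8⟩, hz⟩

/-- The accepted sequences of pieces. -/
theorem mem_good (strict : Prop) (i : Fin m) (x : List (Finset (Mt m) ⊕ Finset (Mt m))) :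
    wd i x ∈ (witM m).language strict ↔ Good' x := by
  rw [mem_language_runs]
  refine Iff.trans ?_ (runs_good (strict := strict) i x.length x
    ((x0 strict (witM m)).1) le_rfl)
  constructor
  · rintro ⟨y, h1, h2⟩
    exact ⟨y, h1, (finX_iff y).1 h2⟩
  · rintro ⟨y, h1, h2⟩
    exact ⟨y, h1, (finX_iff y).2 h2⟩

end Pool.Agent.NH88.FX
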