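import Mathlib
import Pool.Agent.NH88.FA.Fin3
import Pool.Agent.NH88.FA.NIL
import Pool.Agent.NH88.FX.Lang

set_option autoImplicit false

/-!
Lower bounds for the 1-limited automata of subexponential ambiguity that are equivalent to the
witness with queries.
-/

namespace Pool.Agent.NH88.FX

open Relation Pool.Agent.H630R2.LA Pool.Agent.R620.KV Pool.Agent.NH19.LA Pool.Agent.NH88.FA

section general

variable {A : Type} {strict : Prop} {M : LimAut A}

theorem runs_FT (hd : M.Deterministic) (u : List A) :
    ∀ x y : Set (M.Q × M.Q) × M.Q, FT x.1 → runs strict M u x y → FT y.1 := by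
  induction u with
  | nil =>
    intro x y hx h
    have : x = y := h
    rw [← this]
    exact hx
  | cons a u ih =>
    rintro x y hx ⟨z, h1, h2⟩
    exact ih z y (nstep_unique hd hx h1 h1).2 h2

open Classical in
/-- The function of a table. -/
noncomputable def fn (y : Set (M.Q × M.Q) × M.Q) : (Lft M → Option M.Q) × M.Q :=
  (fun q => if h : ∃ s, (q.1, s) ∈ y.1 then some h.choose else none, y.2)

theorem fn_iff {y : Set (M.Q × M.Q) × M.Q} (hy : FT y.1) (q : Lft M) (s : M.Q) :
    (fn y).1 q = some s ↔ (q.1, s) ∈ y.1 := by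
  unfold fn
  constructor
  · intro h
    dsimp only at h
    split_ifs at h with h1
    simp only [Option.some.injEq] at h
    rw [← h]
    exact h1.choose_spec
  · intro h
    have h1 : ∃ s, (q.1, s) ∈ y.1 := ⟨s, h⟩
    dsimp only
    rw [dif_pos h1]
    congr 1
    exact hy _ _ _ h1.choose_spec h

end general

variable {m : ℕ} {strict : Prop}

/-- Pieces. -/
abbrev Pc (m : ℕ) : Type := Finset (Mt m) ⊕ Finset (Mt m)

theorem cod_eq (i : Fin m) (x : List (Pc m)) : cod (κ i) x = wd i x := rfl

theorem κ_ne (i : Fin m) (X : Pc m) : κ i X ≠ [] := by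
  cases X <;> simp [κ]

theorem good_append : ∀ (n : ℕ) (x y : List (Pc m)), x.length ≤ n → Good' x → Good' y →
    Good' (x ++ y) := by
  intro n
  induction n with
  | zero =>
    intro x y hn hx hy
    have : x = [] := List.length_eq_zero_iff.1 (by omega)
    subst this
    exact hy
  | succ n ih =>
    intro x y hn hx hy
    match x, hn, hx with
    | [], _, _ => exact hy
    | .inl S :: .inr T :: x, hn, hx =>
      simp only [Good'] at hx
      simp only [List.cons_append, Good']
      refine ⟨hx.1, ih x y ?_ hx.2 hy⟩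
      simp only [List.length_cons] at hn
      omega
    | [.inl S], _, hx => exact absurd hx (by simp [Good'])
    | .inl S :: .inl T :: x, _, hx => exact absurd hx (by simp [Good'])
    | .inr S :: x, _, hx => exact absurd hx (by simp [Good'])

theorem good_mid (S T : Finset (Mt m)) : ∀ (n : ℕ) (u v : List (Pc m)), u.length ≤ n →
    Good' (u ++ .inl S :: .inr T :: v) → ∃ X, X ∈ S ∧ X ∈ T := by
  intro n
  induction n with
  | zero =>
    intro u v hn hx
    have : u = [] := List.length_eq_zero_iff.1 (by omega)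
    subst this
    simp only [List.nil_append, Good'] at hx
    exact hx.1
  | succ n ih =>
    intro u v hn hx
    match u, hn, hx with
    | [], _, hx =>
      simp only [List.nil_append, Good'] at hx
      exact hx.1
    | .inl S' :: .inr T' :: u, hn, hx =>
      simp only [List.cons_append, Good'] at hx
      refine ih u v ?_ hx.2
      simp only [List.length_cons] at hn
      omega
    | [.inl S'], _, hx => exact absurd hx (by simp [Good'])
    | .inl S' :: .inl T' :: x, _, hx => exact absurd hx (by simp [Good'])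
    | .inr S' :: x, _, hx => exact absurd hx (by simp [Good'])

theorem good_two (S T : Finset (Mt m)) : Good' ([.inl S] ++ [.inr T]) ↔ (S ∩ T).Nonempty := by
  simp only [List.cons_append, List.nil_append, Good', and_true]
  constructor
  · rintro ⟨X, h1, h2⟩
    exact ⟨X, Finset.mem_inter.2 ⟨h1, h2⟩⟩
  · rintro ⟨X, h⟩
    exact ⟨X, Finset.mem_inter.1 h⟩

theorem card_Mt (m : ℕ) : Fintype.card (Mt m) = 2 ^ (m ^ 2) := by
  have h1 : Fintype.card (Mt m) = (2 ^ m) ^ m := by
    simp [Mt]
  rw [h1, ← pow_mul, sq]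

theorem sub_lower {M : LimAut Ltr} (hPOL : S_POL) (hm : 1 ≤ m) (ha : Subexp strict M)
    (hL : M.language strict = (witM m).language strict) :
    2 ^ (2 ^ (m ^ 2)) ≤ Nat.card M.Q * 2 ^ ((Lft M).ncard * Nat.card M.Q) + 1 := by
  classical
  have hfin := M.finQ
  let _ : Fintype (EE M) := Fintype.ofFinite _
  let i0 : Fin m := ⟨0, hm⟩
  have hκ : ∀ X, κ i0 X ≠ [] := κ_ne i0
  have hlang : ∀ x, cod (κ i0) x ∈ M.language strict ↔ Good' x := by
    intro x
    rw [hL, cod_eq, mem_good]
  obtain ⟨v, u, r, hr, hv⟩ := hPOL (EE M) (Pc m) (ph strict M (κ i0)) Good'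
    ph_append ph_nil (ph_diag hκ ha) (fun x y hx hy => good_append _ x y le_rfl hx hy)
    ⟨[], trivial⟩ (by
      intro x hx
      apply ph_ne
      rw [hlang]
      exact hx)
  have hr0 : (r : ℚ) ≠ 0 := by
    have : r ≠ 0 := by omega
    exact_mod_cast this
  have key := rank_bound (V := Mt m) (E := EE M)
    (fun S e => ((∑ i, v i * ph strict M (κ i0) [.inl S] i e : ℕ) : ℚ) / r)
    (fun T e => ((∑ j, ph strict M (κ i0) [.inr T] e j * u j : ℕ) : ℚ)) (by
    intro S T
    have h1 : ∀ e, ((∑ i, v i * ph strict M (κ i0) [.inl S] i e : ℕ) : ℚ) / r *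
        ((∑ j, ph strict M (κ i0) [.inr T] e j * u j : ℕ) : ℚ) =
        (((∑ i, v i * ph strict M (κ i0) [.inl S] i e) *
          (∑ j, ph strict M (κ i0) [.inr T] e j * u j) : ℕ) : ℚ) / r := by
      intro e
      push_cast
      ring
    simp only [h1]
    rw [← Finset.sum_div, ← Nat.cast_sum, bilin, ← ph_append]
    by_cases hST : (S ∩ T).Nonempty
    · rw [if_pos hST, hv _ ((good_two S T).2 hST), div_self hr0]
    · rw [if_neg hST]
      have h2 : ph strict M (κ i0) ([.inl S] ++ [.inr T]) = 0 := by
        apply ph_zero hκ _ (by simp)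
        intro x y hxy
        rw [hlang] at hxy
        apply hST
        have e : x ++ ([Sum.inl S] ++ [Sum.inr T]) ++ y = x ++ Sum.inl S :: Sum.inr T :: y := by
          simp
        rw [e] at hxy
        obtain ⟨X, h3, h4⟩ := good_mid S T _ x y le_rfl hxy
        exact ⟨X, Finset.mem_inter.2 ⟨h3, h4⟩⟩
      rw [h2]
      simp)
  have h3 : Fintype.card (EE M) = Nat.card M.Q * 2 ^ ((Lft M).ncard * Nat.card M.Q) := by
    rw [← Nat.card_eq_fintype_card, Nat.card_prod, Nat.mul_comm]
    congr 1
    have h4 : Nat.card (Set (Lft M × M.Q)) = Nat.card ((Lft M × M.Q) → Prop) := rfl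
    rw [h4, Nat.card_fun, Nat.card_prod, Nat.card_coe_set_eq]
    simp
  rw [h3, card_Mt] at key
  exact key

theorem det_lower {M : LimAut Ltr} (hm : 1 ≤ m) (hd : M.Deterministic)
    (hL : M.language strict = (witM m).language strict) :
    2 ^ (2 ^ (m ^ 2)) ≤ (Nat.card M.Q + 1) ^ ((Lft M).ncard + 1) := by
  classical
  have hfin := M.finQ
  let i0 : Fin m := ⟨0, hm⟩
  have hlang : ∀ x, cod (κ i0) x ∈ M.language strict ↔ Good' x := by
    intro x
    rw [hL, cod_eq, mem_good]
  let F : Finset (Mt m) → Option ((Lft M → Option M.Q) × M.Q) := fun S =>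
    (stateOf strict M (cod (κ i0) [.inl S])).map fn
  have hone : ∀ S S' T : Finset (Mt m), F S = F S' → (S ∩ T).Nonempty → (S' ∩ T).Nonempty := by
    intro S S' T hF hST
    rw [← good_two, ← hlang, mem_language_runs, cod_append] at hST ⊢
    obtain ⟨z, h1, h2⟩ := hST
    rw [runs_append] at h1
    obtain ⟨y, h3, h4⟩ := h1
    have h5 := (stateOf_eq hd _ _).2 h3
    have h6 : F S = some (fn y) := by
      show Option.map _ _ = _
      rw [h5]
      rfl
    rw [h6] at hF
    obtain ⟨y', h7, h8⟩ := Option.map_eq_some_iff.1 hF.symm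
    have h9 := (stateOf_eq hd _ _).1 h7
    have hy := runs_FT hd _ _ _ (x0_FT hd) h3
    have hy' := runs_FT hd _ _ _ (x0_FT hd) h9
    have h10 : res y = res y' := by
      have h11' : (fn y').2 = (fn y).2 := congrArg Prod.snd h8
      have h11 : y'.2 = y.2 := h11'
      refine Prod.ext ?_ h11.symm
      ext ⟨q, s⟩
      show (q.1, s) ∈ y.1 ↔ (q.1, s) ∈ y'.1
      rw [← fn_iff hy, ← fn_iff hy', h8]
    refine ⟨z, (runs_append _ _ _ _).2 ⟨y', h9, runs_res ?_ h10 h4⟩, h2⟩
    rw [cod_cons]
    intro h
    exact κ_ne i0 _ (List.append_eq_nil_iff.1 h).1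
  have hinj : Function.Injective F := by
    intro S S' h
    ext x
    constructor
    · intro hx
      obtain ⟨y, hy⟩ := hone S S' {x} h ⟨x, by simp [hx]⟩
      simp only [Finset.mem_inter, Finset.mem_singleton] at hy
      rw [← hy.2]
      exact hy.1
    · intro hx
      obtain ⟨y, hy⟩ := hone S' S {x} h.symm ⟨x, by simp [hx]⟩
      simp only [Finset.mem_inter, Finset.mem_singleton] at hy
      rw [← hy.2]
      exact hy.1
  have h1 := Nat.card_le_card_of_injective _ hinj
  rw [Finite.card_option, Nat.card_prod, Nat.card_fun, Finite.card_option,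
    Nat.card_coe_set_eq, Nat.card_eq_fintype_card (α := Finset (Mt m)), Fintype.card_finset,
    card_Mt] at h1
  refine h1.trans ?_
  rw [pow_succ, Nat.mul_add, Nat.mul_one]
  have : 1 ≤ (Nat.card M.Q + 1) ^ (Lft M).ncard := Nat.one_le_pow _ _ (Nat.succ_pos _)
  omega

end Pool.Agent.NH88.FX
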