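import Mathlib
import Pool.Agent.NH88.FX.Fin

set_option autoImplicit false

/-!
Assembly.
-/

namespace Pool.Agent.NH88.FX

open Relation Pool.Agent.H630R2.LA Pool.Agent.R620.KV Pool.Agent.NH19.LA Pool.Agent.NH88.FA

theorem pol : S_POL := by
  have hI := t_IDEM
  have hM : S_MAT := t_MAT hI t_POW (t_TR hI) (t_PERM hI)
  exact t_POL hM t_CMU t_CLE (t_NIL t_CMU)

theorem lft_le {A : Type} (M : LimAut A) : (Lft M).ncard ≤ Nat.card M.Q := by
  have := M.finQ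
  have h6 := Set.ncard_le_ncard (Set.subset_univ (Lft M)) (Set.toFinite _)
  rwa [Set.ncard_univ] at h6

theorem size_lower' {M : LimAut Ltr} {m : ℕ}
    (h : 2 ^ (2 ^ (m ^ 2)) ≤ Nat.card M.Q * 2 ^ ((Lft M).ncard * Nat.card M.Q) + 1) :
    2 ^ (m ^ 2) ≤ M.size ^ 2 := size_lower (lft_le M) h

theorem main (strict : Prop) (m : ℕ) (hm : 1 ≤ m) :
    ∃ M : LimAut Ltr, Nat.card M.Q ≤ 12 * (m + 1) ∧ M.size ≤ 2080 * (m + 1) ∧
      (∀ M' : LimAut Ltr, M'.language strict = M.language strict →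
        ((∃ C k : ℕ, ∀ w, AccLE strict M' w (C * (w.length + 1) ^ k)) → Subexp strict M') ∧
        (Subexp strict M' →
          2 ^ (2 ^ (m ^ 2)) ≤ Nat.card M'.Q * 2 ^ ((Lft M').ncard * Nat.card M'.Q) + 1 ∧
          2 ^ (m ^ 2) ≤ M'.size ^ 2) ∧
        (M'.Deterministic → 2 ^ (2 ^ (m ^ 2)) ≤ (Nat.card M'.Q + 1) ^ ((Lft M').ncard + 1))) ∧
      ∃ M' : LimAut Ltr, M'.Deterministic ∧ (∀ w, AccLE strict M' w 1) ∧
        M'.language strict = M.language strict ∧ M'.size ≤ 2 ^ ((M.size + 2) ^ 4) := by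
  refine ⟨witM m, ?_, size_witM m, ?_, ?_⟩
  · have h6 := card_Tag
    have h2 : Nat.card (witM m).Q = Nat.card Tag * (m + 1) := by
      show Nat.card (Tag × Fin (m + 1)) = _
      rw [Nat.card_prod]
      simp
    rw [h2]
    exact Nat.mul_le_mul_right _ h6
  · intro M' hL
    refine ⟨?_, ?_, fun hd => det_lower hm hd hL⟩
    · rintro ⟨C, k, h⟩
      exact subexp_of_poly strict M' C k h
    · intro ha
      have h5 := sub_lower pol hm ha hL
      exact ⟨h5, size_lower' h5⟩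
  · obtain ⟨M', h5, h6, h7⟩ := upper (witM m) strict
    exact ⟨M', h5, accLE_of_det strict M' h5, h6, h7⟩

set_option exponentiation.threshold 100000000 in
theorem main2 (strict : Prop) (n : ℕ) (hn : 4160 ≤ n) :
    ∃ M : LimAut Ltr, M.size ≤ n ∧ ∀ M' : LimAut Ltr, M'.language strict = M.language strict →
      Subexp strict M' → 2 ^ (n ^ 2) ≤ M'.size ^ 80000000 := by
  obtain ⟨m, hm1, hm2, hm3⟩ : ∃ m, 1 ≤ m ∧ 2080 * (m + 1) ≤ n ∧ n ≤ 2080 * (m + 2) := by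
    refine ⟨n / 2080 - 1, ?_, ?_, ?_⟩ <;> omega
  obtain ⟨M, _, h1, h2, _⟩ := main strict m hm1
  refine ⟨M, h1.trans hm2, fun M' h3 h4 => ?_⟩
  have h5 := ((h2 M' h3).2.1 h4).2
  have h6 : n ^ 2 ≤ m ^ 2 * 40000000 := by
    have h7 : n ≤ 6240 * m := by omega
    have h8 : n ^ 2 ≤ (6240 * m) ^ 2 := Nat.pow_le_pow_left h7 2
    nlinarith
  calc 2 ^ (n ^ 2) ≤ 2 ^ (m ^ 2 * 40000000) := Nat.pow_le_pow_right (by omega) h6
    _ = (2 ^ (m ^ 2)) ^ 40000000 := by rw [pow_mul]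
    _ ≤ (M'.size ^ 2) ^ 40000000 := Nat.pow_le_pow_left h5 _
    _ = M'.size ^ 80000000 := by rw [← pow_mul]

end Pool.Agent.NH88.FX
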